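import Pool.Agent.K9h70.PZ.AllG

/-!
# BMY for all smooth `(ℤ/n)^d`-coverings over pseudoline arrangements, `n` an odd prime

An arrangement of `k` pseudolines in the real projective plane (given by its wiring diagram) has a
complexification: `k` symplectic lines in `ℂP²` with the same intersection pattern.  Let `X` be the
blow-up of `ℂP²` at the points of multiplicity `≥ 3`, let `E_p` be the exceptional curves, and let
`Y → X` be a smooth covering with group `(ℤ/n)^d`, `n` prime, branched along the proper transforms of all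
the lines.  For each `p` the covering is either branched along `E_p` (with index `n`) or not branched
along `E_p`; let `Z` be the set of the points `p` of the second kind (`Z = ∅` for the Kummer
coverings).  `Y` is a closed symplectic 4-manifold.  We prove `c₁² ≤ 3 c₂` for it, for every odd prime
`n`, every `d` and every `Z` (and more generally for `n = 3` and all `n ≥ 5`, if the index of
each `E_p` is `n` or `1`).

The worst sets `Z` give the inequalities
* `n = 3`: `t₂ + t₃ ≥ k + ∑_{r ≥ 5} (2 r - 9) t_r` (Hirzebruch's factors),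
* `n = 5`: `4 t₂ + 3 t₃ + t₄ ≥ 4 k + ∑_{r ≥ 5} (6 r - 25) t_r` (equality for the complete quadrilateral and
  for the icosahedral arrangement of 15 lines),
* `n ≥ 7`: follows from `9 t₂ + 7 t₃ ≥ 9 k + ∑_{r ≥ 5} (12 r - 49) t_r`,
* `n = 6`: follows from the last two,
all for multiplicities `≤ k - 3`, here for pseudolines.

Proof (`Pool/Agent/K9h70/PZ`).
(a) New inequality `t₂ + t₃ ≥ 7 + ∑_{r ≥ 4} (2 r - 7) t_r`: each triangular face sends 1 across each
of its sides with two double ends; the neighbour is not a triangle, and a quadrangle does not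
receive through two opposite sides (otherwise all other lines pass through one point); so a face
with `j` sides has at most `5 j - 14`.
(b) Deleting a line `l` changes the difference of the two sides by a sum over the points of `l`; so in a
minimal counterexample this is negative for all `l`.
(c) Let `R` be the maximal multiplicity and `P` a point of multiplicity `R`.  The pairs (line through
`P`, other line) counted directly, (a), (b), the number of all pairs, Melchior's inequality, and the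
number of pairs of points of multiplicity `≥ 4` and `≥ 5` (two of them are on at most one common line)
contradict each other.
-/

set_option autoImplicit false

namespace Pool.Agent.Results.MP_872606_gt.OddPrimeCoverings

/-- `x` is below `y` just to the left of the `i`-th point: `B j` is the set of the wires through the
`j`-th point, the wires are numbered from bottom to top at the left end, and two wires change their
order when they meet. -/
def Below {k N : ℕ} (B : Fin N → Finset (Fin k)) (i : Fin N) (x y : Fin k) : Prop :=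
  (x < y ∧ ∀ j < i, ¬ (x ∈ B j ∧ y ∈ B j)) ∨ (y < x ∧ ∃ j < i, x ∈ B j ∧ y ∈ B j)

/-- A wiring diagram with `k` wires: `N` points from left to right, the `i`-th one on the wires
`B i`; two wires meet exactly once; the wires through a point are consecutive just before it. -/
structure WiringDiagram (k : ℕ) where
  N : ℕ
  B : Fin N → Finset (Fin k)
  two_le : ∀ i, 2 ≤ (B i).card
  cross : ∀ x y, x ≠ y → ∃! i, x ∈ B i ∧ y ∈ B i
  consecutive : ∀ i x y z, x ∈ B i → y ∈ B i → Below B i x z → Below B i z y → z ∈ B i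

/-- multiplicity of the `i`-th point -/
def WiringDiagram.r {k : ℕ} (A : WiringDiagram k) (i : Fin A.N) : ℤ := ((A.B i).card : ℤ)

/-- `c₂` (Euler number) of the covering with group `(ℤ/n)^d`: `n²`, `n` or `1` times `n^(d-2)` times
the Euler numbers of the complement of the lines, of the lines without the points, and of the parts
over the points -/
def WiringDiagram.c2 {k : ℕ} (A : WiringDiagram k) (n d : ℕ) (Z : Finset (Fin A.N)) : ℤ :=
  n ^ (d - 2) * (n ^ 2 * (3 - 2 * k + ∑ i, (A.r i - 1)) + n * (2 * k - ∑ i, A.r i) +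
    ∑ i, (if A.r i = 2 then 1 else if i ∈ Z then n ^ 2 * (2 - A.r i) + n * A.r i
      else n * (2 - A.r i) + A.r i))

/-- `c₁²` of the covering: `K_Y` is the pull-back of `K_X + (1 - 1/n) (∑ lines + ∑_{p ∉ Z} E_p)`, and
`n` times this class is
`((n - 1) k - 3 n) H - ∑_{p ∉ Z} ((n - 1) r_p - (2 n - 1)) E_p - ∑_{p ∈ Z} ((n - 1) r_p - n) E_p` -/
def WiringDiagram.c1sq {k : ℕ} (A : WiringDiagram k) (n d : ℕ) (Z : Finset (Fin A.N)) : ℤ :=
  n ^ (d - 2) * (((n - 1) * k - 3 * n) ^ 2 -
    ∑ i, (if A.r i = 2 then 0 else if i ∈ Z then ((n - 1) * A.r i - n) ^ 2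
      else ((n - 1) * A.r i - (2 * n - 1)) ^ 2))

section aux

open K9h61.PL

variable {k : ℕ} (A : WiringDiagram k)

/-- the blocks, indexed by natural numbers -/
def WiringDiagram.C (i : ℕ) : Finset (Fin k) := if h : i < A.N then A.B ⟨i, h⟩ else ∅

theorem WiringDiagram.C_lt {i : ℕ} (h : i < A.N) : A.C i = A.B ⟨i, h⟩ := by
  unfold WiringDiagram.C; rw [dif_pos h]

theorem WiringDiagram.below_iff {i : ℕ} (hi : i < A.N) (x y : Fin k) :
    below A.C i x y ↔ Below A.B ⟨i, hi⟩ x y := by
  unfold below Below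
  have h1 : (∀ j < i, ¬ (x ∈ A.C j ∧ y ∈ A.C j)) ↔
      (∀ j < (⟨i, hi⟩ : Fin A.N), ¬ (x ∈ A.B j ∧ y ∈ A.B j)) := by
    constructor
    · intro h j hj
      have hj' : j.1 < i := hj
      have := h j.1 hj'
      rwa [A.C_lt j.2] at this
    · intro h j hj
      rw [A.C_lt (lt_trans hj hi)]
      exact h ⟨j, lt_trans hj hi⟩ hj
  have h2 : (∃ j < i, x ∈ A.C j ∧ y ∈ A.C j) ↔
      (∃ j < (⟨i, hi⟩ : Fin A.N), x ∈ A.B j ∧ y ∈ A.B j) := by
    constructor
    · rintro ⟨j, hj, h⟩
      rw [A.C_lt (lt_trans hj hi)] at h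
      exact ⟨⟨j, lt_trans hj hi⟩, hj, h⟩
    · rintro ⟨j, hj, h⟩
      refine ⟨j.1, hj, ?_⟩
      rw [A.C_lt j.2]
      exact h
  rw [h1, h2]

/-- the arrangement in the form used in `Pool/Agent/K9h61/PL` -/
def WiringDiagram.arr : Arr (Fin k) where
  N := A.N
  B := A.C
  cross x y hxy := by
    obtain ⟨i, hi, _⟩ := A.cross x y hxy
    exact ⟨i.1, i.2, by rw [A.C_lt i.2]; exact hi⟩
  uniq x y hxy i hi j hj h1 h2 h3 h4 := by
    rw [A.C_lt hi] at h1 h2
    rw [A.C_lt hj] at h3 h4
    obtain ⟨l, _, hl⟩ := A.cross x y hxy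
    have e1 := hl ⟨i, hi⟩ ⟨h1, h2⟩
    have e2 := hl ⟨j, hj⟩ ⟨h3, h4⟩
    exact congrArg Fin.val (e1.trans e2.symm)
  convex i hi x y z hx hy h1 h2 := by
    rw [A.C_lt hi] at hx hy ⊢
    rw [A.below_iff hi] at h1 h2
    exact A.consecutive _ x y z hx hy h1 h2

theorem WiringDiagram.sum_eq (g : ℕ → ℤ) :
    ∑ i ∈ Finset.range A.arr.N, g (A.arr.B i).card = ∑ i, g (A.B i).card := by
  show ∑ i ∈ Finset.range A.N, g (A.C i).card = _
  rw [Finset.sum_range]
  refine Finset.sum_congr rfl fun i _ => ?_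
  rw [A.C_lt i.2]

theorem WiringDiagram.card_le {c : ℕ} (h : ∀ i, (A.B i).card + c ≤ k) :
    ∀ i < A.arr.N, (A.arr.B i).card + c ≤ Fintype.card (Fin k) := by
  intro i hi
  have hi' : i < A.N := hi
  show (A.C i).card + c ≤ _
  rw [A.C_lt hi', Fintype.card_fin]
  exact h _

/-- the number of pairs of wires -/
theorem WiringDiagram.pairs : ∑ i, A.r i * (A.r i - 1) = (k : ℤ) * ((k : ℤ) - 1) := by
  have h := K9h61.PL.LeafH.pairs_off A.arr Finset.univ
  rw [Finset.card_univ, Fintype.card_fin] at h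
  rw [← h]
  simp only [Finset.inter_univ]
  exact (A.sum_eq (fun b => (b : ℤ) * ((b : ℤ) - 1))).symm

/-- the weight of a point in `3 c₂ - c₁²` -/
def WiringDiagram.hh (n : ℤ) (Z : Finset (Fin A.N)) (i : Fin A.N) : ℤ :=
  if A.r i = 2 then (n - 1) ^ 2 else if i ∈ Z then 4 * n ^ 2 - (n ^ 2 - 1) * A.r i
    else (n + 1) ^ 2 - 2 * (n - 1) * A.r i

theorem WiringDiagram.defect (n d : ℕ) (Z : Finset (Fin A.N)) :
    3 * A.c2 n d Z - A.c1sq n d Z = n ^ (d - 2) * (∑ i, A.hh n Z i - (n - 1) ^ 2 * k) := by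
  unfold WiringDiagram.c2 WiringDiagram.c1sq
  have h1 := A.pairs
  have h2 : ∑ i, A.hh n Z i = ∑ i, (3 * (n : ℤ) ^ 2 * (A.r i - 1) - 3 * n * A.r i +
      3 * (if A.r i = 2 then 1 else if i ∈ Z then (n : ℤ) ^ 2 * (2 - A.r i) + n * A.r i
        else n * (2 - A.r i) + A.r i) +
      (if A.r i = 2 then 0 else if i ∈ Z then (((n : ℤ) - 1) * A.r i - n) ^ 2
        else (((n : ℤ) - 1) * A.r i - (2 * n - 1)) ^ 2) -
      ((n : ℤ) - 1) ^ 2 * (A.r i * (A.r i - 1))) := by
    refine Finset.sum_congr rfl fun i _ => ?_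
    unfold WiringDiagram.hh
    split_ifs with a b
    · rw [a]; ring
    · ring
    · ring
  rw [Finset.sum_sub_distrib, Finset.sum_add_distrib, Finset.sum_add_distrib,
    Finset.sum_sub_distrib, ← Finset.mul_sum, ← Finset.mul_sum, ← Finset.mul_sum,
    ← Finset.mul_sum, h1] at h2
  rw [h2]
  ring

theorem WiringDiagram.case3 (Z : Finset (Fin A.N)) (i : Fin A.N) :
    4 * K9h70.PZ.phi3 (A.B i).card ≤ A.hh 3 Z i := by
  have h5 := A.two_le i
  unfold WiringDiagram.hh WiringDiagram.r K9h70.PZ.phi3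
  split_ifs <;> omega

theorem WiringDiagram.case5 (Z : Finset (Fin A.N)) (i : Fin A.N) :
    4 * K9h70.PZ.phiG 4 3 1 25 6 (A.B i).card ≤ A.hh 5 Z i := by
  have h5 := A.two_le i
  unfold WiringDiagram.hh WiringDiagram.r K9h70.PZ.phiG
  split_ifs <;> omega

theorem WiringDiagram.case6 (Z : Finset (Fin A.N)) (i : Fin A.N) :
    4 * K9h70.PZ.phiG 4 3 1 25 6 (A.B i).card + K9h70.PZ.phiG 9 7 0 49 12 (A.B i).card ≤
      A.hh 6 Z i := by
  have h5 := A.two_le i
  unfold WiringDiagram.hh WiringDiagram.r K9h70.PZ.phiG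
  split_ifs <;> omega

theorem WiringDiagram.case7 (n : ℤ) (hn : 7 ≤ n) (Z : Finset (Fin A.N)) (i : Fin A.N) :
    (n - 1) ^ 2 * K9h70.PZ.phiG 9 7 0 49 12 (A.B i).card ≤ 9 * A.hh n Z i := by
  have h5 := A.two_le i
  unfold WiringDiagram.hh WiringDiagram.r K9h70.PZ.phiG
  obtain ⟨m, rfl⟩ : ∃ m, n = 7 + m := ⟨n - 7, by ring⟩
  have hm : 0 ≤ m := by linarith
  rcases Nat.lt_or_ge (A.B i).card 5 with h6 | h6
  · generalize (A.B i).card = b at *
    interval_cases b
    · norm_num
      ring_nf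
      nlinarith
    · norm_num
      split_ifs <;> nlinarith [mul_nonneg hm hm]
    · norm_num
      split_ifs <;> nlinarith [mul_nonneg hm hm]
  · rw [if_neg (by omega), if_neg (by omega), if_neg (by omega), if_neg (by omega)]
    have e1 : ¬ ((A.B i).card : ℤ) = 2 := by
      intro h
      have : (A.B i).card = 2 := by exact_mod_cast h
      omega
    rw [if_neg e1]
    obtain ⟨s, hs⟩ : ∃ s : ℕ, (A.B i).card = 5 + s := ⟨(A.B i).card - 5, by omega⟩
    rw [hs]
    push_cast
    have hs0 : (0 : ℤ) ≤ s := Int.natCast_nonneg s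
    have e2 : 0 ≤ m * (s : ℤ) := mul_nonneg hm hs0
    have e3 : 0 ≤ m * (m * (s : ℤ)) := mul_nonneg hm e2
    have e4 : 0 ≤ m * m := mul_nonneg hm hm
    split_ifs
    · nlinarith
    · nlinarith

theorem WiringDiagram.main (hk : 2 ≤ k) (n : ℕ) (hn : n = 3 ∨ 5 ≤ n)
    (Z : Finset (Fin A.N)) (h2 : ∀ i, (A.B i).card + 2 ≤ k)
    (hZ : ∀ i ∈ Z, 3 ≤ (A.B i).card ∧ (A.B i).card + 3 ≤ k) :
    ((n : ℤ) - 1) ^ 2 * k ≤ ∑ i, A.hh n Z i := by
  have hV : 2 ≤ Fintype.card (Fin k) := by rwa [Fintype.card_fin]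
  by_cases h3 : ∀ i, (A.B i).card + 3 ≤ k
  · have hn' : n = 3 ∨ n = 5 ∨ n = 6 ∨ 7 ≤ n := by omega
    clear hn
    rcases hn' with rfl | rfl | rfl | hn
    · have h4 := K9h70.PZ.S_H3_true (Fin k) A.arr hV (A.card_le h3)
      rw [A.sum_eq, Fintype.card_fin] at h4
      have h5 : ∑ i, 4 * K9h70.PZ.phi3 (A.B i).card ≤ ∑ i, A.hh 3 Z i :=
        Finset.sum_le_sum fun i _ => A.case3 Z i
      rw [← Finset.mul_sum] at h5
      push_cast
      linarith
    · have h4 := K9h70.PZ.G5_true (Fin k) A.arr hV (A.card_le h3)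
      rw [A.sum_eq, Fintype.card_fin] at h4
      have h5 : ∑ i, 4 * K9h70.PZ.phiG 4 3 1 25 6 (A.B i).card ≤ ∑ i, A.hh 5 Z i :=
        Finset.sum_le_sum fun i _ => A.case5 Z i
      rw [← Finset.mul_sum] at h5
      push_cast
      linarith
    · have h4 := K9h70.PZ.G5_true (Fin k) A.arr hV (A.card_le h3)
      rw [A.sum_eq, Fintype.card_fin] at h4
      have h4' := K9h70.PZ.G7_true (Fin k) A.arr hV (A.card_le h3)
      rw [A.sum_eq, Fintype.card_fin] at h4'
      have h5 : ∑ i, (4 * K9h70.PZ.phiG 4 3 1 25 6 (A.B i).card +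
          K9h70.PZ.phiG 9 7 0 49 12 (A.B i).card) ≤ ∑ i, A.hh 6 Z i :=
        Finset.sum_le_sum fun i _ => A.case6 Z i
      rw [Finset.sum_add_distrib, ← Finset.mul_sum] at h5
      push_cast
      linarith
    · have h4 := K9h70.PZ.G7_true (Fin k) A.arr hV (A.card_le h3)
      rw [A.sum_eq, Fintype.card_fin] at h4
      have hn' : (7 : ℤ) ≤ n := by exact_mod_cast hn
      have h5 : ∑ i, ((n : ℤ) - 1) ^ 2 * K9h70.PZ.phiG 9 7 0 49 12 (A.B i).card ≤
          ∑ i, 9 * A.hh n Z i :=
        Finset.sum_le_sum fun i _ => A.case7 n hn' Z i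
      rw [← Finset.mul_sum, ← Finset.mul_sum] at h5
      have h6 := mul_le_mul_of_nonneg_left h4 (sq_nonneg ((n : ℤ) - 1))
      nlinarith
  · push Not at h3
    obtain ⟨p, hp⟩ := h3
    have hp2 := h2 p
    have hn3 : 3 ≤ n := by omega
    -- all other points have multiplicity at most 3
    have hother : ∀ i, i ≠ p → (A.B i).card ≤ 3 := by
      intro i hi
      have e1 : (A.B i ∩ A.B p).card ≤ 1 := by
        rw [Finset.card_le_one]
        intro a ha b hb
        by_contra hab
        rw [Finset.mem_inter] at ha hb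
        obtain ⟨l, _, hl⟩ := A.cross a b hab
        exact hi ((hl i ⟨ha.1, hb.1⟩).trans (hl p ⟨ha.2, hb.2⟩).symm)
      have e2 : (A.B i \ A.B p).card ≤ k - (A.B p).card := by
        have e3 : (A.B i \ A.B p).card ≤ (Finset.univ \ A.B p).card :=
          Finset.card_le_card (Finset.sdiff_subset_sdiff (Finset.subset_univ _) (le_refl _))
        rw [Finset.card_univ_sdiff, Fintype.card_fin] at e3
        exact e3
      have e4 : (A.B i ∩ A.B p).card + (A.B i \ A.B p).card = (A.B i).card :=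
        Finset.card_inter_add_card_sdiff _ _
      omega
    have hnz : (3 : ℤ) ≤ n := by exact_mod_cast hn3
    have h4 := (K9h64.PL.t_E K9h61.PL.S_M_true (Fin k) A.arr hV (A.card_le h2) (n : ℤ) hnz).1
    unfold K9h61.PL.PP at h4
    rw [K9h61.PL.LeafH.F0_eq A.arr, K9h61.PL.LeafH.F1_eq A.arr, K9h61.PL.LeafH.T2_eq A.arr,
      Fintype.card_fin, A.sum_eq (fun b => if 2 ≤ b then (1 : ℤ) else 0),
      A.sum_eq (fun b => if 2 ≤ b then (b : ℤ) else 0),
      A.sum_eq (fun b => if b = 2 then (1 : ℤ) else 0)] at h4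
    have h7 : ∑ i, (((n : ℤ) + 1) ^ 2 * (if 2 ≤ (A.B i).card then (1 : ℤ) else 0) -
        2 * ((n : ℤ) - 1) * (if 2 ≤ (A.B i).card then ((A.B i).card : ℤ) else 0) -
        4 * (if (A.B i).card = 2 then (1 : ℤ) else 0)) ≤ ∑ i, A.hh n Z i := by
      refine Finset.sum_le_sum fun i _ => ?_
      have h8 := A.two_le i
      rw [if_pos h8, if_pos h8]
      unfold WiringDiagram.hh WiringDiagram.r
      by_cases h9 : (A.B i).card = 2
      · have h9' : ((A.B i).card : ℤ) = 2 := by exact_mod_cast h9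
        rw [if_pos h9, if_pos h9', h9']
        nlinarith
      · have h9' : ¬ ((A.B i).card : ℤ) = 2 := by exact_mod_cast h9
        rw [if_neg h9, if_neg h9']
        split_ifs with hiZ
        · have hip : i ≠ p := by
            rintro rfl
            have := (hZ i hiZ).2
            omega
          have h10 : (A.B i).card = 3 := by
            have := hother i hip
            have := (hZ i hiZ).1
            omega
          rw [h10]
          push_cast
          nlinarith
        · linarith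
    rw [Finset.sum_sub_distrib, Finset.sum_sub_distrib, ← Finset.mul_sum, ← Finset.mul_sum,
      ← Finset.mul_sum] at h7
    have h8 := sq_nonneg ((n : ℤ) - 5)
    refine le_trans ?_ h7
    generalize ∑ i, (if 2 ≤ (A.B i).card then (1 : ℤ) else 0) = F0 at *
    generalize ∑ i, (if 2 ≤ (A.B i).card then ((A.B i).card : ℤ) else 0) = F1 at *
    generalize ∑ i, (if (A.B i).card = 2 then (1 : ℤ) else 0) = T2 at *
    nlinarith

end aux

theorem result (k : ℕ) (A : WiringDiagram k) (hk : 2 ≤ k) (n d : ℕ) (hn : n = 3 ∨ 5 ≤ n)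
    (Z : Finset (Fin A.N)) (h : ∀ i, (A.B i).card + 2 ≤ k)
    (hZ : ∀ i ∈ Z, 3 ≤ (A.B i).card ∧ (A.B i).card + 3 ≤ k) :
    A.c1sq n d Z ≤ 3 * A.c2 n d Z := by
  have h1 := A.main hk n hn Z h hZ
  have h2 := A.defect n d Z
  have h3 : (0 : ℤ) ≤ (n : ℤ) ^ (d - 2) * (∑ i, A.hh n Z i - ((n : ℤ) - 1) ^ 2 * k) := by
    apply mul_nonneg
    · positivity
    · linarith
  linarith

end Pool.Agent.Results.MP_872606_gt.OddPrimeCoverings
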