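import Pool.Agent.K9h61.PL.All
import Pool.Agent.K9h61.PL.Bridge
import Pool.Agent.K9h61.PL.Lab2
import Pool.Agent.K9h61.PL.H2s
import Pool.Agent.K9h61.PL.Quad
import Pool.Agent.K9h64.PL.E

/-!
# The Bogomolov-Miyaoka-Yau inequality for symplectic Kummer coverings over pseudoline arrangements

An arrangement of `k` pseudolines in the real projective plane (given by its wiring diagram) has a
complexification: `k` symplectic lines in `ℂP²` with the same intersection pattern.  Blowing up its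
points of multiplicity `≥ 3` and taking the covering with group `(ℤ/n)^(k-1)` branched along the
pseudolines one obtains a closed symplectic 4-manifold `Y_n(A)`; `c₁²` and `c₂` of it are given by
Hirzebruch's formulas.  We prove `c₁² ≤ 3 c₂` for every exponent `n ≥ 3` and every arrangement
without points on `k` or `k - 1` of the pseudolines, and for the exponent `n = 2` and every
arrangement without points on `k`, `k - 1` or `k - 2` of the pseudolines (the excluded coverings are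
rational or ruled).  Equality holds only for `n = 5` and six pseudolines with three double and four
triple points, the complete quadrilateral (Hirzebruch's ball quotient); for `n ≥ 3` we have
`3 c₂ - c₁² ≥ n ^ (k - 3) (n - 5) ^ 2`.  For `n = 3` this is
`t₂ + t₃ ≥ k + 1 + ∑_{r ≥ 5} (r - 4) t_r`, and for `n = 2` it is
`t₂ + 3 t₃ + t₄ ≥ k + 1 + ∑_{r ≥ 5} (2 r - 9) t_r`.

Proof.  Put `D = 3 f₀ - f₁ - 3 = ∑_faces (sides - 3) ≥ 0` (Melchior) and let `m` be the number of
points of multiplicity at least 3.  The inequality for `n = 3` says `m + D ≥ k - 2`.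
(a) No two triangular faces on both sides of an edge have both its ends double, unless `k - 1`
pseudolines meet in a point; counting double points in the faces gives `t₂ ≤ m - 1 + 3 D`.
(b) Deleting a line `l` changes `m + D` by `a₂(l) - a_{≥4}(l)`, so in a minimal counterexample
`a₂(l) ≤ a_{≥4}(l)` for every line `l`.  Counting the pairs of lines of which one passes through a
point `P` of multiplicity `r ≥ 4` gives `r (k - r) ≤ ∑_{r_Q ≥ 3} r_Q = t₂ + 3 m - 3 - D`.  With (a):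
`4 k - 16 ≤ r (k - r) ≤ 4 m - 4 + 2 D`, which together with the number of all pairs of lines is a
contradiction (`k - r ≤ 3` is easy).
(c) The exponents `n ≥ 4` follow from `n = 3`, (a), Melchior's inequality and the number of pairs of
pseudolines.
(d) The exponent `n = 2` follows in the same way from Shnurnikov's inequality
`t₂ + 3/2 t₃ ≥ 15/2 + ∑_{r ≥ 4} (2 r - 15/2) t_r` (all `r ≤ k - 3`), which is proved here as well.
-/

set_option autoImplicit false

namespace Pool.Agent.Results.MP_872606_gt.PseudolineKummerCovers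

/-- `x` is below `y` just to the left of the `i`-th point: `B j` is the set of the wires through the
`j`-th point, the wires are numbered from bottom to top at the left end, and two wires change their
order when they meet. -/
def Below {k N : ℕ} (B : Fin N → Finset (Fin k)) (i : Fin N) (x y : Fin k) : Prop :=
  (x < y ∧ ∀ j < i, ¬ (x ∈ B j ∧ y ∈ B j)) ∨ (y < x ∧ ∃ j < i, x ∈ B j ∧ y ∈ B j)

/-- A wiring diagram with `k` wires: `N` points from left to right, the `i`-th one on the wires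
`B i`; two wires meet exactly once; the wires through a point are consecutive just before it. -/
structure WiringDiagram (k : ℕ) where
  N : ℕ
  B : Fin N → Finset (Fin k)
  two_le : ∀ i, 2 ≤ (B i).card
  cross : ∀ x y, x ≠ y → ∃! i, x ∈ B i ∧ y ∈ B i
  consecutive : ∀ i x y z, x ∈ B i → y ∈ B i → Below B i x z → Below B i z y → z ∈ B i

/-- number of points on exactly `r` wires -/
def WiringDiagram.t {k : ℕ} (A : WiringDiagram k) (r : ℕ) : ℤ :=
  ((Finset.univ.filter (fun i => (A.B i).card = r)).card : ℤ)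

/-- number of points -/
def WiringDiagram.f0 {k : ℕ} (A : WiringDiagram k) : ℤ := A.N

/-- number of incidences of points and wires -/
def WiringDiagram.f1 {k : ℕ} (A : WiringDiagram k) : ℤ := ∑ i, ((A.B i).card : ℤ)

/-- `c₂` (Euler characteristic) of the Kummer covering of exponent `n` -/
def WiringDiagram.c2 {k : ℕ} (A : WiringDiagram k) (n : ℕ) : ℤ :=
  n ^ (k - 3) * (n ^ 2 * (3 - 2 * k + A.f1 - A.f0) + 2 * n * (k - A.f1 + A.f0) + A.f1 - A.t 2)

/-- `c₁²` of the Kummer covering of exponent `n` -/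
def WiringDiagram.c1sq {k : ℕ} (A : WiringDiagram k) (n : ℕ) : ℤ :=
  n ^ (k - 3) * (n ^ 2 * (9 - 5 * k + 3 * A.f1 - 4 * A.f0) + 4 * n * (k - A.f1 + A.f0) +
    A.f1 - A.f0 + k + A.t 2)

section aux

open K9h61.PL

variable {k : ℕ} (A : WiringDiagram k)

/-- the blocks, indexed by natural numbers -/
def WiringDiagram.C (i : ℕ) : Finset (Fin k) := if h : i < A.N then A.B ⟨i, h⟩ else ∅

theorem WiringDiagram.C_lt {i : ℕ} (h : i < A.N) : A.C i = A.B ⟨i, h⟩ := by
  unfold WiringDiagram.C; rw [dif_pos h]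

theorem WiringDiagram.below_iff {i : ℕ} (hi : i < A.N) (x y : Fin k) :
    below A.C i x y ↔ Below A.B ⟨i, hi⟩ x y := by
  unfold below Below
  have h1 : (∀ j < i, ¬ (x ∈ A.C j ∧ y ∈ A.C j)) ↔
      (∀ j < (⟨i, hi⟩ : Fin A.N), ¬ (x ∈ A.B j ∧ y ∈ A.B j)) := by
    constructor
    · intro h j hj
      have hj' : j.1 < i := hj
      have := h j.1 hj'
      rwa [A.C_lt j.2] at this
    · intro h j hj
      rw [A.C_lt (lt_trans hj hi)]
      exact h ⟨j, lt_trans hj hi⟩ hj
  have h2 : (∃ j < i, x ∈ A.C j ∧ y ∈ A.C j) ↔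
      (∃ j < (⟨i, hi⟩ : Fin A.N), x ∈ A.B j ∧ y ∈ A.B j) := by
    constructor
    · rintro ⟨j, hj, h⟩
      rw [A.C_lt (lt_trans hj hi)] at h
      exact ⟨⟨j, lt_trans hj hi⟩, hj, h⟩
    · rintro ⟨j, hj, h⟩
      refine ⟨j.1, hj, ?_⟩
      rw [A.C_lt j.2]
      exact h
  rw [h1, h2]

/-- the arrangement in the form used in `Pool/Agent/K9h61/PL` -/
def WiringDiagram.arr : Arr (Fin k) where
  N := A.N
  B := A.C
  cross x y hxy := by
    obtain ⟨i, hi, _⟩ := A.cross x y hxy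
    exact ⟨i.1, i.2, by rw [A.C_lt i.2]; exact hi⟩
  uniq x y hxy i hi j hj h1 h2 h3 h4 := by
    rw [A.C_lt hi] at h1 h2
    rw [A.C_lt hj] at h3 h4
    obtain ⟨l, _, hl⟩ := A.cross x y hxy
    have e1 := hl ⟨i, hi⟩ ⟨h1, h2⟩
    have e2 := hl ⟨j, hj⟩ ⟨h3, h4⟩
    exact congrArg Fin.val (e1.trans e2.symm)
  convex i hi x y z hx hy h1 h2 := by
    rw [A.C_lt hi] at hx hy ⊢
    rw [A.below_iff hi] at h1 h2
    exact A.consecutive _ x y z hx hy h1 h2

theorem WiringDiagram.pts_eq : A.arr.pts = Finset.range A.N := by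
  unfold Arr.pts
  rw [Finset.filter_true_of_mem]
  · rfl
  · intro i hi
    have hi' : i < A.N := Finset.mem_range.1 hi
    show 2 ≤ (A.C i).card
    rw [A.C_lt hi']
    exact A.two_le _

theorem WiringDiagram.f0_eq : (A.arr.f0 : ℤ) = A.f0 := by
  unfold Arr.f0 WiringDiagram.f0
  rw [A.pts_eq, Finset.card_range]

theorem WiringDiagram.f1_eq : (A.arr.f1 : ℤ) = A.f1 := by
  unfold Arr.f1 WiringDiagram.f1
  rw [A.pts_eq, Finset.sum_range]
  push_cast
  refine Finset.sum_congr rfl fun i _ => ?_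
  show ((A.C i.1).card : ℤ) = _
  rw [A.C_lt i.2]

theorem WiringDiagram.t2_eq : (A.arr.t2 : ℤ) = A.t 2 := by
  unfold Arr.t2 WiringDiagram.t
  rw [A.pts_eq, Finset.card_filter, Finset.card_filter, Finset.sum_range]
  push_cast
  refine Finset.sum_congr rfl fun i _ => ?_
  show (if (A.C i.1).card = 2 then (1 : ℤ) else 0) = _
  rw [A.C_lt i.2]

theorem WiringDiagram.card_le {c : ℕ} (h : ∀ i, (A.B i).card + c ≤ k) :
    ∀ i < A.arr.N, (A.arr.B i).card + c ≤ Fintype.card (Fin k) := by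
  intro i hi
  have hi' : i < A.N := hi
  show (A.C i).card + c ≤ _
  rw [A.C_lt hi', Fintype.card_fin]
  exact h _

theorem WiringDiagram.t3_eq :
    ((((Finset.range A.arr.N).filter fun i => (A.arr.B i).card = 3).card : ℕ) : ℤ) = A.t 3 := by
  unfold WiringDiagram.t
  show (((Finset.range A.N).filter fun i => (A.C i).card = 3).card : ℤ) = _
  rw [Finset.card_filter, Finset.card_filter, Finset.sum_range]
  push_cast
  refine Finset.sum_congr rfl fun i _ => ?_
  rw [A.C_lt i.2]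

/-- `3 c₂ - c₁²` up to the factor `n ^ (k - 3)` -/
def WiringDiagram.PP (n : ℤ) : ℤ :=
  n ^ 2 * (A.f0 - k) + 2 * n * (k - A.f1 + A.f0) + 2 * A.f1 + A.f0 - k - 4 * A.t 2

theorem WiringDiagram.PP_eq (n : ℤ) : K9h61.PL.PP (Fin k) A.arr n = A.PP n := by
  unfold K9h61.PL.PP WiringDiagram.PP
  rw [A.f0_eq, A.f1_eq, A.t2_eq, Fintype.card_fin]

theorem WiringDiagram.main2 (hk : 2 ≤ k) (h : ∀ i, (A.B i).card + 3 ≤ k) : 1 ≤ A.PP 2 := by
  have hM := K9h61.PL.S_M_true
  have hV : 2 ≤ Fintype.card (Fin k) := by rwa [Fintype.card_fin]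
  have h1 := K9h61.PL.t_H2s hM (K9h61.PL.t_B2 K9h61.PL.t_C2) (Fin k) A.arr hV (A.card_le h)
  have h2 : ((Fintype.card (Fin k) + 1 + 2 * A.arr.f1 + 4 * A.arr.t2 : ℕ) : ℤ) ≤
      ((9 * A.arr.f0 : ℕ) : ℤ) := by exact_mod_cast h1
  push_cast at h2
  rw [A.f0_eq, A.f1_eq, A.t2_eq, Fintype.card_fin] at h2
  unfold WiringDiagram.PP
  linarith

theorem WiringDiagram.main3 (hk : 2 ≤ k) (n : ℕ) (hn : 3 ≤ n) (h : ∀ i, (A.B i).card + 2 ≤ k) :
    ((n : ℤ) - 5) ^ 2 ≤ A.PP n ∧ (A.PP n = 0 → n = 5 ∧ k = 6 ∧ A.t 2 = 3 ∧ A.t 3 = 4) := by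
  have hV : 2 ≤ Fintype.card (Fin k) := by rwa [Fintype.card_fin]
  obtain ⟨h1, h2⟩ := K9h64.PL.t_E K9h61.PL.S_M_true (Fin k) A.arr hV (A.card_le h) (n : ℤ)
    (by exact_mod_cast hn)
  rw [A.PP_eq] at h1 h2
  refine ⟨h1, fun h3 => ?_⟩
  obtain ⟨a1, a2, a3, a4, a5⟩ := h2 h3
  refine ⟨by exact_mod_cast a1, by rwa [Fintype.card_fin] at a2, ?_, ?_⟩
  · rw [← A.t2_eq, a5]
    norm_num
  · rw [← A.t3_eq, K9h61.PL.quad_counts' (Fin k) A.arr a3 a4 a5]
    norm_num

theorem WiringDiagram.quad (hk : k = 6) (h2 : A.t 2 = 3) (h3 : A.t 3 = 4) : A.PP 5 = 0 := by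
  have h2' : A.arr.t2 = 3 := by
    have := A.t2_eq
    rw [h2] at this
    exact_mod_cast this
  have h3' : ((Finset.range A.arr.N).filter fun i => (A.arr.B i).card = 3).card = 4 := by
    have := A.t3_eq
    rw [h3] at this
    exact_mod_cast this
  obtain ⟨e0, e1⟩ := K9h61.PL.quad_counts (Fin k) A.arr (by rw [Fintype.card_fin, hk]) h2' h3'
  have e0' := A.f0_eq
  have e1' := A.f1_eq
  rw [e0] at e0'
  rw [e1] at e1'
  unfold WiringDiagram.PP
  rw [← e0', ← e1', h2, hk]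
  norm_num

theorem WiringDiagram.diff (n : ℕ) :
    3 * A.c2 n - A.c1sq n = (n : ℤ) ^ (k - 3) * A.PP n := by
  unfold WiringDiagram.c2 WiringDiagram.c1sq WiringDiagram.PP
  ring

end aux

theorem result (k : ℕ) (A : WiringDiagram k) (hk : 2 ≤ k) (n : ℕ)
    (h : (3 ≤ n ∧ ∀ i, (A.B i).card + 2 ≤ k) ∨ (n = 2 ∧ ∀ i, (A.B i).card + 3 ≤ k)) :
    A.c1sq n ≤ 3 * A.c2 n ∧
      (A.c1sq n = 3 * A.c2 n ↔ n = 5 ∧ k = 6 ∧ A.t 2 = 3 ∧ A.t 3 = 4) ∧
      (3 ≤ n → (n : ℤ) ^ (k - 3) * ((n : ℤ) - 5) ^ 2 ≤ 3 * A.c2 n - A.c1sq n) := by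
  have hn0 : 0 < n := by omega
  have hpos : (0 : ℤ) < (n : ℤ) ^ (k - 3) := by positivity
  have hdiff := A.diff n
  have hPP : 0 ≤ A.PP n ∧ (A.PP n = 0 → n = 5 ∧ k = 6 ∧ A.t 2 = 3 ∧ A.t 3 = 4) ∧
      (3 ≤ n → ((n : ℤ) - 5) ^ 2 ≤ A.PP n) := by
    rcases h with ⟨hn, h⟩ | ⟨rfl, h⟩
    · obtain ⟨h1, h2⟩ := A.main3 hk n hn h
      exact ⟨le_trans (sq_nonneg _) h1, h2, fun _ => h1⟩
    · have h1 := A.main2 hk h
      have h1' : 1 ≤ A.PP ((2 : ℕ) : ℤ) := by exact_mod_cast h1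
      refine ⟨by linarith, fun h2 => ?_, fun h2 => by omega⟩
      omega
  obtain ⟨h1, h2, h3⟩ := hPP
  refine ⟨?_, ⟨fun he => ?_, ?_⟩, fun hn => ?_⟩
  · have := mul_nonneg hpos.le h1
    linarith
  · apply h2
    have h4 : (n : ℤ) ^ (k - 3) * A.PP n = 0 := by
      rw [← hdiff, he]
      ring
    rcases mul_eq_zero.1 h4 with h5 | h5
    · exact absurd h5 hpos.ne'
    · exact h5
  · rintro ⟨rfl, hk6, a2, a3⟩
    have h4 : A.PP ((5 : ℕ) : ℤ) = 0 := by exact_mod_cast A.quad hk6 a2 a3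
    rw [h4, mul_zero] at hdiff
    linarith
  · rw [hdiff]
    exact mul_le_mul_of_nonneg_left (h3 hn) hpos.le

end Pool.Agent.Results.MP_872606_gt.PseudolineKummerCovers
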