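import Pool.Agent.K9h61.PL.All
import Pool.Agent.K9h61.PL.Quad
import Pool.Agent.K9h64.PL.Slope

/-!
# Sharp slopes of the symplectic Kummer coverings over pseudoline arrangements

An arrangement of `k` pseudolines in the real projective plane (given by its wiring diagram) has a
complexification: `k` symplectic lines in `ℂP²` with the same intersection pattern.  Blowing up its
points of multiplicity `≥ 3` and taking the covering with group `(ℤ/n)^(k-1)` branched along the
pseudolines one obtains a closed symplectic 4-manifold `Y_n(A)`; `c₁²` and `c₂` of it are given by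
Hirzebruch's formulas.

For each exponent `n ≥ 5` we determine the largest slope `c₁² / c₂` of these 4-manifolds: for every
arrangement without points on `k` or `k - 1` of the pseudolines

`c₁² / c₂ ≤ 5 (n - 2)² / (2 n² - 10 n + 15)`,

with equality exactly for six pseudolines with three double points and four triple points (the
complete quadrilateral).  The bound is `3` for `n = 5` (Hirzebruch's ball quotient); it is less than `3`
for `n ≥ 6` and tends to `5/2`.  So for `n ≥ 6` the inequality of Bogomolov, Miyaoka and Yau holds with a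
constant smaller than `3`, which depends on `n` only; for coverings over complex line arrangements
this is false (for the dual Hesse arrangement `c₁² = 3 c₂` for `n = 5`, and the slopes tend to `8/3`).
(`PseudolineKummerCovers` proves `c₁² ≤ 3 c₂` for all `n ≥ 2`.)

Proof.  Put `D = 3 f₀ - f₁ - 3 ≥ 0`, `S = ∑_{r ≥ 4} (r - 3) t_r`, `h = 4 f₀ - f₁ - t₂ - k`, so that
`h ≥ 1` by the sharp form of Hirzebruch's inequality for pseudolines (`K9h64.PL.strictH`), and
`X = 6 h + 3 S + 2 D - 2 (k - 3)`, so that `X ≥ 0` (`K9h64.PL.keyX`; this uses the number of pairs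
of pseudolines).  Up to the factor `n ^ (k - 3)`

`2 (5 (n - 2)² c₂ - (2 n² - 10 n + 15) c₁²) = 6 (n - 5)² (h - 1) + 2 (n - 5)² (n² - 1) D +
 (2 n³ - 9 n² + 10 n - 15) X + (6 n³ - 35 n² + 30 n + 35) S`,

and the coefficients are not negative for `n ≥ 5`.  In the case of equality `X = S = 0`, and the
number of pairs gives `k = 6`, `h = 1`, `D = 0`.
-/

set_option autoImplicit false

namespace Pool.Agent.Results.MP_872606_gt.SharpSlopes

/-- `x` is below `y` just to the left of the `i`-th point: `B j` is the set of the wires through the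
`j`-th point, the wires are numbered from bottom to top at the left end, and two wires change their
order when they meet. -/
def Below {k N : ℕ} (B : Fin N → Finset (Fin k)) (i : Fin N) (x y : Fin k) : Prop :=
  (x < y ∧ ∀ j < i, ¬ (x ∈ B j ∧ y ∈ B j)) ∨ (y < x ∧ ∃ j < i, x ∈ B j ∧ y ∈ B j)

/-- A wiring diagram with `k` wires: `N` points from left to right, the `i`-th one on the wires
`B i`; two wires meet exactly once; the wires through a point are consecutive just before it. -/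
structure WiringDiagram (k : ℕ) where
  N : ℕ
  B : Fin N → Finset (Fin k)
  two_le : ∀ i, 2 ≤ (B i).card
  cross : ∀ x y, x ≠ y → ∃! i, x ∈ B i ∧ y ∈ B i
  consecutive : ∀ i x y z, x ∈ B i → y ∈ B i → Below B i x z → Below B i z y → z ∈ B i

/-- number of points on exactly `r` wires -/
def WiringDiagram.t {k : ℕ} (A : WiringDiagram k) (r : ℕ) : ℤ :=
  ((Finset.univ.filter (fun i => (A.B i).card = r)).card : ℤ)

/-- number of points -/
def WiringDiagram.f0 {k : ℕ} (A : WiringDiagram k) : ℤ := A.N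

/-- number of incidences of points and wires -/
def WiringDiagram.f1 {k : ℕ} (A : WiringDiagram k) : ℤ := ∑ i, ((A.B i).card : ℤ)

/-- `c₂` (Euler characteristic) of the Kummer covering of exponent `n` -/
def WiringDiagram.c2 {k : ℕ} (A : WiringDiagram k) (n : ℕ) : ℤ :=
  n ^ (k - 3) * (n ^ 2 * (3 - 2 * k + A.f1 - A.f0) + 2 * n * (k - A.f1 + A.f0) + A.f1 - A.t 2)

/-- `c₁²` of the Kummer covering of exponent `n` -/
def WiringDiagram.c1sq {k : ℕ} (A : WiringDiagram k) (n : ℕ) : ℤ :=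
  n ^ (k - 3) * (n ^ 2 * (9 - 5 * k + 3 * A.f1 - 4 * A.f0) + 4 * n * (k - A.f1 + A.f0) +
    A.f1 - A.f0 + k + A.t 2)

section aux

open K9h61.PL

variable {k : ℕ} (A : WiringDiagram k)

/-- the blocks, indexed by natural numbers -/
def WiringDiagram.C (i : ℕ) : Finset (Fin k) := if h : i < A.N then A.B ⟨i, h⟩ else ∅

theorem WiringDiagram.C_lt {i : ℕ} (h : i < A.N) : A.C i = A.B ⟨i, h⟩ := by
  unfold WiringDiagram.C; rw [dif_pos h]

theorem WiringDiagram.below_iff {i : ℕ} (hi : i < A.N) (x y : Fin k) :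
    below A.C i x y ↔ Below A.B ⟨i, hi⟩ x y := by
  unfold below Below
  have h1 : (∀ j < i, ¬ (x ∈ A.C j ∧ y ∈ A.C j)) ↔
      (∀ j < (⟨i, hi⟩ : Fin A.N), ¬ (x ∈ A.B j ∧ y ∈ A.B j)) := by
    constructor
    · intro h j hj
      have hj' : j.1 < i := hj
      have := h j.1 hj'
      rwa [A.C_lt j.2] at this
    · intro h j hj
      rw [A.C_lt (lt_trans hj hi)]
      exact h ⟨j, lt_trans hj hi⟩ hj
  have h2 : (∃ j < i, x ∈ A.C j ∧ y ∈ A.C j) ↔
      (∃ j < (⟨i, hi⟩ : Fin A.N), x ∈ A.B j ∧ y ∈ A.B j) := by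
    constructor
    · rintro ⟨j, hj, h⟩
      rw [A.C_lt (lt_trans hj hi)] at h
      exact ⟨⟨j, lt_trans hj hi⟩, hj, h⟩
    · rintro ⟨j, hj, h⟩
      refine ⟨j.1, hj, ?_⟩
      rw [A.C_lt j.2]
      exact h
  rw [h1, h2]

/-- the arrangement in the form used in `Pool/Agent/K9h61/PL` -/
def WiringDiagram.arr : Arr (Fin k) where
  N := A.N
  B := A.C
  cross x y hxy := by
    obtain ⟨i, hi, _⟩ := A.cross x y hxy
    exact ⟨i.1, i.2, by rw [A.C_lt i.2]; exact hi⟩
  uniq x y hxy i hi j hj h1 h2 h3 h4 := by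
    rw [A.C_lt hi] at h1 h2
    rw [A.C_lt hj] at h3 h4
    obtain ⟨l, _, hl⟩ := A.cross x y hxy
    have e1 := hl ⟨i, hi⟩ ⟨h1, h2⟩
    have e2 := hl ⟨j, hj⟩ ⟨h3, h4⟩
    exact congrArg Fin.val (e1.trans e2.symm)
  convex i hi x y z hx hy h1 h2 := by
    rw [A.C_lt hi] at hx hy ⊢
    rw [A.below_iff hi] at h1 h2
    exact A.consecutive _ x y z hx hy h1 h2

theorem WiringDiagram.pts_eq : A.arr.pts = Finset.range A.N := by
  unfold Arr.pts
  rw [Finset.filter_true_of_mem]
  · rfl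
  · intro i hi
    have hi' : i < A.N := Finset.mem_range.1 hi
    show 2 ≤ (A.C i).card
    rw [A.C_lt hi']
    exact A.two_le _

theorem WiringDiagram.f0_eq : (A.arr.f0 : ℤ) = A.f0 := by
  unfold Arr.f0 WiringDiagram.f0
  rw [A.pts_eq, Finset.card_range]

theorem WiringDiagram.f1_eq : (A.arr.f1 : ℤ) = A.f1 := by
  unfold Arr.f1 WiringDiagram.f1
  rw [A.pts_eq, Finset.sum_range]
  push_cast
  refine Finset.sum_congr rfl fun i _ => ?_
  show ((A.C i.1).card : ℤ) = _
  rw [A.C_lt i.2]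

theorem WiringDiagram.t2_eq : (A.arr.t2 : ℤ) = A.t 2 := by
  unfold Arr.t2 WiringDiagram.t
  rw [A.pts_eq, Finset.card_filter, Finset.card_filter, Finset.sum_range]
  push_cast
  refine Finset.sum_congr rfl fun i _ => ?_
  show (if (A.C i.1).card = 2 then (1 : ℤ) else 0) = _
  rw [A.C_lt i.2]

theorem WiringDiagram.card_le {c : ℕ} (h : ∀ i, (A.B i).card + c ≤ k) :
    ∀ i < A.arr.N, (A.arr.B i).card + c ≤ Fintype.card (Fin k) := by
  intro i hi
  have hi' : i < A.N := hi
  show (A.C i).card + c ≤ _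
  rw [A.C_lt hi', Fintype.card_fin]
  exact h _

theorem WiringDiagram.t3_eq :
    ((((Finset.range A.arr.N).filter fun i => (A.arr.B i).card = 3).card : ℕ) : ℤ) = A.t 3 := by
  unfold WiringDiagram.t
  show (((Finset.range A.N).filter fun i => (A.C i).card = 3).card : ℤ) = _
  rw [Finset.card_filter, Finset.card_filter, Finset.sum_range]
  push_cast
  refine Finset.sum_congr rfl fun i _ => ?_
  rw [A.C_lt i.2]

theorem WiringDiagram.c2_eq (n : ℕ) :
    A.c2 n = (n : ℤ) ^ (k - 3) * K9h64.PL.CC2 k A.f0 A.f1 (A.t 2) n := by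
  unfold WiringDiagram.c2 K9h64.PL.CC2
  ring

theorem WiringDiagram.c1sq_eq (n : ℕ) :
    A.c1sq n = (n : ℤ) ^ (k - 3) * K9h64.PL.CC1 k A.f0 A.f1 (A.t 2) n := by
  unfold WiringDiagram.c1sq K9h64.PL.CC1
  ring

theorem WiringDiagram.quad (hk : k = 6) (h2 : A.t 2 = 3) (h3 : A.t 3 = 4) :
    A.f0 = 7 ∧ A.f1 = 18 := by
  have h2' : A.arr.t2 = 3 := by
    have := A.t2_eq
    rw [h2] at this
    exact_mod_cast this
  have h3' : ((Finset.range A.arr.N).filter fun i => (A.arr.B i).card = 3).card = 4 := by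
    have := A.t3_eq
    rw [h3] at this
    exact_mod_cast this
  obtain ⟨e0, e1⟩ := K9h61.PL.quad_counts (Fin k) A.arr (by rw [Fintype.card_fin, hk]) h2' h3'
  have e0' := A.f0_eq
  have e1' := A.f1_eq
  rw [e0] at e0'
  rw [e1] at e1'
  exact ⟨by rw [← e0']; norm_num, by rw [← e1']; norm_num⟩

theorem WiringDiagram.slope (hk : 2 ≤ k) (n : ℕ) (hn : 5 ≤ n) (h : ∀ i, (A.B i).card + 2 ≤ k) :
    0 < K9h64.PL.CC2 k A.f0 A.f1 (A.t 2) n ∧
    (2 * (n : ℤ) ^ 2 - 10 * n + 15) * K9h64.PL.CC1 k A.f0 A.f1 (A.t 2) n ≤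
      5 * ((n : ℤ) - 2) ^ 2 * K9h64.PL.CC2 k A.f0 A.f1 (A.t 2) n ∧
    ((2 * (n : ℤ) ^ 2 - 10 * n + 15) * K9h64.PL.CC1 k A.f0 A.f1 (A.t 2) n =
      5 * ((n : ℤ) - 2) ^ 2 * K9h64.PL.CC2 k A.f0 A.f1 (A.t 2) n →
      k = 6 ∧ A.t 2 = 3 ∧ A.t 3 = 4) := by
  have hV : 2 ≤ Fintype.card (Fin k) := by rwa [Fintype.card_fin]
  obtain ⟨h1, h2, h3⟩ := K9h64.PL.slope K9h61.PL.S_M_true (Fin k) A.arr hV (A.card_le h) (n : ℤ)
    (by exact_mod_cast hn)
  rw [A.f0_eq, A.f1_eq, A.t2_eq, Fintype.card_fin] at h1 h2 h3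
  refine ⟨h1, h2, fun he => ?_⟩
  obtain ⟨a1, a2, a3, a4⟩ := h3 he
  refine ⟨a1, ?_, ?_⟩
  · rw [← A.t2_eq, a2]
    norm_num
  · rw [← A.t3_eq, K9h61.PL.quad_counts' (Fin k) A.arr a3 a4 a2]
    norm_num

end aux

/-- The points of the complete quadrilateral. -/
def qB : Fin 7 → Finset (Fin 6) :=
  ![{0, 1, 2}, {0, 3, 4}, {1, 4}, {0, 5}, {1, 3, 5}, {2, 4, 5}, {2, 3}]

instance (i : Fin 7) (x y : Fin 6) : Decidable (Below qB i x y) := by
  unfold Below
  infer_instance

set_option maxRecDepth 10000 in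
theorem q_cross : ∀ x y : Fin 6, x ≠ y →
    ∃ i, (x ∈ qB i ∧ y ∈ qB i) ∧ ∀ j, (x ∈ qB j ∧ y ∈ qB j) → j = i := by
  decide

set_option maxRecDepth 10000 in
theorem q_cons : ∀ (i : Fin 7) (x y z : Fin 6), x ∈ qB i → y ∈ qB i → Below qB i x z →
    Below qB i z y → z ∈ qB i := by
  decide

/-- The complete quadrilateral. -/
def quadrilateral : WiringDiagram 6 where
  N := 7
  B := qB
  two_le := by decide
  cross := fun x y h => q_cross x y h
  consecutive := q_cons

theorem quad_t2 : quadrilateral.t 2 = 3 := by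
  show ((Finset.univ.filter (fun i : Fin 7 => (qB i).card = 2)).card : ℤ) = 3
  have : (Finset.univ.filter (fun i : Fin 7 => (qB i).card = 2)).card = 3 := by decide
  rw [this]
  rfl

theorem quad_t3 : quadrilateral.t 3 = 4 := by
  show ((Finset.univ.filter (fun i : Fin 7 => (qB i).card = 3)).card : ℤ) = 4
  have : (Finset.univ.filter (fun i : Fin 7 => (qB i).card = 3)).card = 4 := by decide
  rw [this]
  rfl

/-- **Sharp slopes.** For `n ≥ 5` and all arrangements of pseudolines without points on `k` or `k - 1` of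
them `c₂ > 0` and `c₁² / c₂ ≤ 5 (n - 2)² / (2 n² - 10 n + 15)`, with equality if and only if `k = 6`,
`t₂ = 3`, `t₃ = 4`; there is such an arrangement. -/
theorem result (n : ℕ) (hn : 5 ≤ n) :
    (∀ (k : ℕ) (A : WiringDiagram k), 2 ≤ k → (∀ i, (A.B i).card + 2 ≤ k) →
      0 < A.c2 n ∧
      (2 * (n : ℤ) ^ 2 - 10 * n + 15) * A.c1sq n ≤ 5 * ((n : ℤ) - 2) ^ 2 * A.c2 n ∧
      ((2 * (n : ℤ) ^ 2 - 10 * n + 15) * A.c1sq n = 5 * ((n : ℤ) - 2) ^ 2 * A.c2 n ↔
        k = 6 ∧ A.t 2 = 3 ∧ A.t 3 = 4)) ∧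
    ∃ A : WiringDiagram 6, (∀ i, (A.B i).card + 2 ≤ 6) ∧ A.t 2 = 3 ∧ A.t 3 = 4 := by
  refine ⟨fun k A hk h => ?_, quadrilateral, ?_, quad_t2, quad_t3⟩
  · have hn0 : 0 < n := by omega
    have hpos : (0 : ℤ) < (n : ℤ) ^ (k - 3) := by positivity
    obtain ⟨h1, h2, h3⟩ := A.slope hk n hn h
    rw [A.c2_eq, A.c1sq_eq]
    have e1 : ∀ a b : ℤ, a * ((n : ℤ) ^ (k - 3) * b) = (n : ℤ) ^ (k - 3) * (a * b) :=
      fun a b => by ring
    rw [e1, e1]
    refine ⟨mul_pos hpos h1, mul_le_mul_of_nonneg_left h2 hpos.le, fun he => ?_, ?_⟩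
    · exact h3 (mul_left_cancel₀ hpos.ne' he)
    · rintro ⟨hk6, a2, a3⟩
      obtain ⟨a0, a1⟩ := A.quad hk6 a2 a3
      congr 1
      unfold K9h64.PL.CC1 K9h64.PL.CC2
      rw [a0, a1, a2, hk6]
      push_cast
      ring
  · show ∀ i : Fin 7, (qB i).card + 2 ≤ 6
    decide

end Pool.Agent.Results.MP_872606_gt.SharpSlopes
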